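import Pool.Agent.W780.FA.Main

/-!
# MP_fa619e_an, Q1: a negative answer (d = 2, p = 2)

There is `f` in `L²((ℝ/2πℤ)²)` with
`ω(δ, f)_2 (log (1/δ))^{d/p} log log log (e^{e^e}/δ) → 0` as `δ → 0+` (here `d = p = 2`)
whose rectangular Fourier sums fail to converge in the sense of Pringsheim at almost every point;
they are even unbounded there, along every final segment `n ≥ m` of `ℕ²`.

The function is a sum of blocks `A_j g_j`, where `g_j` is the discrete chirp
`(1/N) ∑ exp(-2πi k l/N) exp(i (N+k) x) exp(i (N+l) y)` with `N = 2^{2^j}`, the index `l` running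
over `[0, N)` and the index `k` over a window of length `2N/q`, `q = 2^{⌊log₂ j⌋}`, placed so that
the stationary points of the phase fill the strip `{i/q ≤ y/2π < (i+1)/q}` for `j = q + i`.
-/

set_option autoImplicit false

namespace Pool.Agent.Results.MP_fa619e_an.FailsForPTwo

open MeasureTheory Filter Topology ENNReal Pool.Agent.W780.FA

theorem result : ∃ f : Torus 2 → ℂ, MemLp f (ENNReal.ofReal 2) (torusMeasure 2) ∧
    ModulusCondition 2 2 f ∧
    ∀ᵐ x ∂(torusMeasure 2), ¬ PringsheimConvergesAt f x ∧
      ∀ R : ℝ, ∃ᶠ n : Fin 2 → ℕ in atTop, R < ‖partialSum f n x‖ :=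
  main

end Pool.Agent.Results.MP_fa619e_an.FailsForPTwo
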